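import Mathlib
import Pool.Agent.Lib_helper96.PhaseRetrieval
import Pool.Agent.Lib_helper96.OD.Main
import Pool.Agent.Lib_helper59.AD.EXF

/-!
# Real phase retrieval by projections: fewer than `2M-1` subspaces unless `M-1` is a power of two

For subspaces `W_1,...,W_N` of `ℝ^M` with orthogonal projections `P_n`, the family allows phase
retrieval if `‖P_n x‖ = ‖P_n y‖` for all `n` implies `x = y` or `x = -y`.

Main result: for every `M ≥ 2` such that `M - 1` is not a power of `2`, `N_min(M) ≤ 2M - 2`.
(For `M = 2^s + 1` it is known that `2M - 1` subspaces are needed.)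

Idea of the case `M = 2h+1`, `h = 2n`, `n = 2^r q`, `q ≥ 3` odd (even `M` and `M ≡ 3 mod 4` are
treated by other constructions). `ℝ^M = ℝ ⊕ ℂ^h ∋ x ↔ X(z) = x_0 + x_1 z + ... + x_h z^h`. The span
of suitable `4h` projections tends to the space of the following forms: the coefficients of even
weight of `X Y`, one real form on the odd coordinates, and generic forms of the odd weights
`1, 3, ..., 2h-3` for the rotation `z ↦ uz`. If `X` is even and `Y` odd, these forms have no common
zero by a perturbation argument near the pair `(z^h, z^{h-1})`, where the multiples of `2^{r+1}`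
satisfy `P V = 1 - η s^{q-1}`; all other pairs are excluded by counting algebraically independent
parameters, together with a statement on the sums of the roots of sparse odd polynomials with
algebraically independent coefficients.
-/

namespace Pool.Agent.Results.MP_f4c587_an.AllDimensions

/-- The family `W_1,...,W_N` of subspaces of `ℝ^M` (Euclidean inner product) allows phase
retrieval: if the orthogonal projections of `x` and `y` onto every `W n` have equal norms, then
`x = y` or `x = -y`. -/
def AllowsPhaseRetrieval {M N : ℕ} (W : Fin N → Submodule ℝ (EuclideanSpace ℝ (Fin M))) : Prop :=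
  ∀ x y : EuclideanSpace ℝ (Fin M),
    (∀ n, ‖(W n).starProjection x‖ = ‖(W n).starProjection y‖) → x = y ∨ x = -y

/-- The set of `N` for which some family of `N` subspaces of `ℝ^M` allows phase retrieval.
Its least element is `N_min(M)`. -/
def CountsAny (M : ℕ) : Set ℕ :=
  {N | ∃ W : Fin N → Submodule ℝ (EuclideanSpace ℝ (Fin M)), AllowsPhaseRetrieval W}

/-- For every `M ≥ 2` such that `M - 1` is not a power of two, the least number `c = N_min(M)` of
subspaces of `ℝ^M` allowing phase retrieval satisfies `c ≤ 2M - 2`. -/
theorem result (M : ℕ) (h2 : 2 ≤ M) (hM : ∀ s : ℕ, M ≠ 2 ^ s + 1) :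
    ∃ c : ℕ, IsLeast (CountsAny M) c ∧ c ≤ 2 * M - 2 := by
  have key : 2 * M - 2 ∈ CountsAny M := by
    rcases Nat.even_or_odd' M with ⟨m, hm | hm⟩
    · -- `M` even
      have h1 := hM 0
      have hm2 : 2 ≤ m := by
        by_contra hlt
        have : m = 1 := by omega
        subst this
        simp at h1
        omega
      obtain ⟨W, -, hW⟩ := Pool.Agent.Lib_helper96.PhaseRetrieval.exists_family hm2
      rw [hm]
      exact ⟨W, hW⟩
    · rcases Nat.even_or_odd' m with ⟨n, hn | hn⟩
      · -- `M = 4n+1`
        have hn0 : n ≠ 0 := by rintro rfl; omega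
        obtain ⟨r, q, hq, hnq⟩ := Nat.exists_eq_two_pow_mul_odd hn0
        have hq3 : 3 ≤ q := by
          rcases hq with ⟨k, hk⟩
          by_contra hlt
          have hk0 : k = 0 := by omega
          subst hk0
          apply hM (r + 2)
          rw [hm, hn, hnq, hk]
          ring
        have h4 := Pool.Agent.AD.exists_family n r q hnq hq hq3
        have e1 : M = 4 * n + 1 := by omega
        have e2 : 2 * M - 2 = 8 * n := by omega
        rw [e2, e1]
        exact h4
      · -- `M = 4n+3`
        have hn1 : 1 ≤ n := by
          by_contra hlt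
          have : n = 0 := by omega
          subst this
          apply hM 1
          rw [hm, hn]
          norm_num
        have h4 := Pool.Agent.Lib_helper96.OD.exists_family_odd m ⟨n, hn⟩ (by omega)
        have e2 : 2 * M - 2 = 4 * m := by omega
        rw [e2, hm]
        exact h4
  exact ⟨sInf (CountsAny M), ⟨Nat.sInf_mem ⟨_, key⟩, fun N hN => Nat.sInf_le hN⟩, Nat.sInf_le key⟩

end Pool.Agent.Results.MP_f4c587_an.AllDimensions
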