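import Mathlib
import Pool.Agent.Lib_helper96.PhaseRetrieval

/-!
# Real phase retrieval by projections: fewer than `2M-1` subspaces in every even dimension

For subspaces `W_1,...,W_N` of `ℝ^M` with orthogonal projections `P_n`, the family allows phase
retrieval if `‖P_n x‖ = ‖P_n y‖` for all `n` implies `x = y` or `x = -y`.

Main result: for every even `M ≥ 4`, `N_min(M) ≤ N_{M/2}(M) ≤ 2M - 2 < 2M - 1 = N_1(M)`.

Idea. Identify `ℝ^{2m}` with `ℂ^m`, the complex polynomials of degree `< m`. For a complex symmetric
unitary `S` the real linear map `z ↦ conj (S z)` is a symmetric involution whose fixed space has real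
dimension `m`. We use Hankel symmetric unitary matrices `S` whose entry `s_1` (the coefficient
attached to `X^1`) always has real part `1 - 1/m`. A pair violating phase retrieval would give two
nonzero polynomials `u, v` whose product is a real multiple of `X`, with `Re ⟨u,v⟩ ≠ 0`; but the only
factorisations of `X` are into monomials of different degrees, which are orthogonal.
Only `2(2m-1) = 2M-2` of these matrices are needed, by a linear span argument.
-/

namespace Pool.Agent.Results.MP_f4c587_an.EvenDim

open Pool.Agent.Lib_helper96.PhaseRetrieval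

/-- The family `W_1,...,W_N` of subspaces of `ℝ^M` (Euclidean inner product) allows phase
retrieval: if the orthogonal projections of `x` and `y` onto every `W n` have equal norms, then
`x = y` or `x = -y`. -/
def AllowsPhaseRetrieval {M N : ℕ} (W : Fin N → Submodule ℝ (EuclideanSpace ℝ (Fin M))) : Prop :=
  ∀ x y : EuclideanSpace ℝ (Fin M),
    (∀ n, ‖(W n).starProjection x‖ = ‖(W n).starProjection y‖) → x = y ∨ x = -y

/-- The set of `N` for which some family of `N` subspaces of `ℝ^M` allows phase retrieval.
Its least element is `N_min(M)`. -/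
def CountsAny (M : ℕ) : Set ℕ :=
  {N | ∃ W : Fin N → Submodule ℝ (EuclideanSpace ℝ (Fin M)), AllowsPhaseRetrieval W}

/-- The set of `N` for which some family of `N` subspaces of `ℝ^M`, each of dimension exactly `k`,
allows phase retrieval. Its least element is `N_k(M)`. -/
def Counts (M k : ℕ) : Set ℕ :=
  {N | ∃ W : Fin N → Submodule ℝ (EuclideanSpace ℝ (Fin M)),
      (∀ n, Module.finrank ℝ (W n) = k) ∧ AllowsPhaseRetrieval W}

/-- For every even `M ≥ 4`, the least number `c = N_min(M)` of subspaces of `ℝ^M` allowing phase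
retrieval and the least number `a = N_{M/2}(M)` for subspaces of dimension exactly `M/2` satisfy
`c ≤ a ≤ 2M - 2`, while the least number `b = N_1(M)` for lines is exactly `2M - 1`. -/
theorem result (M : ℕ) (hM : Even M) (h4 : 4 ≤ M) :
    ∃ c a b : ℕ, IsLeast (CountsAny M) c ∧ IsLeast (Counts M (M / 2)) a ∧
      IsLeast (Counts M 1) b ∧ c ≤ a ∧ a ≤ 2 * M - 2 ∧ b = 2 * M - 1 := by
  have hmain : 2 * M - 2 ∈ Counts M (M / 2) := by
    obtain ⟨m, rfl⟩ := hM
    have hm : (m + m) = 2 * m := by ring
    have h2 : 2 * m / 2 = m := by omega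
    rw [hm, h2]
    exact exists_family (by omega)
  have hany : ∀ N ∈ Counts M (M / 2), N ∈ CountsAny M := fun N hN => by
    obtain ⟨W, -, hW⟩ := hN
    exact ⟨W, hW⟩
  refine ⟨sInf (CountsAny M), sInf (Counts M (M / 2)), 2 * M - 1,
    ⟨Nat.sInf_mem ⟨_, hany _ hmain⟩, fun N hN => Nat.sInf_le hN⟩,
    ⟨Nat.sInf_mem ⟨_, hmain⟩, fun N hN => Nat.sInf_le hN⟩,
    ⟨lines_upper (by omega), fun N hN => ?_⟩,
    Nat.sInf_le (hany _ (Nat.sInf_mem ⟨_, hmain⟩)), Nat.sInf_le hmain, rfl⟩
  obtain ⟨W, h1, h2⟩ := hN
  exact lines_lower (by omega) W h1 h2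

end Pool.Agent.Results.MP_f4c587_an.EvenDim
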