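import Mathlib
import Pool.Agent.Lib_helper24.Hyperplanes

/-!
# Real phase retrieval by hyperplanes: the exact number in every even dimension

For every even `M ≥ 4`, `N_{M-1}(M) = 2M - 2`: the least number of hyperplanes of `ℝ^M` (subspaces of
dimension `M - 1`) allowing phase retrieval is exactly `2M - 2`.
-/

namespace Pool.Agent.Results.MP_f4c587_an.Hyperplanes

/-- The family `W_1,...,W_N` of subspaces of `ℝ^M` (Euclidean inner product) allows phase
retrieval: if the orthogonal projections of `x` and `y` onto every `W n` have equal norms, then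
`x = y` or `x = -y`. -/
def AllowsPhaseRetrieval {M N : ℕ} (W : Fin N → Submodule ℝ (EuclideanSpace ℝ (Fin M))) : Prop :=
  ∀ x y : EuclideanSpace ℝ (Fin M),
    (∀ n, ‖(W n).starProjection x‖ = ‖(W n).starProjection y‖) → x = y ∨ x = -y

/-- The set of `N` for which some family of `N` subspaces of `ℝ^M`, each of dimension exactly `k`,
allows phase retrieval. Its least element is `N_k(M)`. -/
def Counts (M k : ℕ) : Set ℕ :=
  {N | ∃ W : Fin N → Submodule ℝ (EuclideanSpace ℝ (Fin M)),
      (∀ n, Module.finrank ℝ (W n) = k) ∧ AllowsPhaseRetrieval W}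

/-- For every even `M ≥ 4` the least number `N_{M-1}(M)` of hyperplanes of `ℝ^M` allowing phase
retrieval is exactly `2M - 2`. -/
theorem result (M : ℕ) (hM : Even M) (h4 : 4 ≤ M) : IsLeast (Counts M (M - 1)) (2 * M - 2) := by
  constructor
  · obtain ⟨n, rfl⟩ : ∃ n, M = n + 1 := ⟨M - 1, by omega⟩
    have hn : Odd n := by
      rcases Nat.even_or_odd n with h | h
      · exfalso
        have := h.add_one
        exact (Nat.not_odd_iff_even.mpr hM) this
      · exact h
    obtain ⟨W, h1, h2⟩ := Pool.Agent.Lib_helper24.Hyperplanes.upper n hn (by omega)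
    have h3 : 2 * (n + 1) - 2 = 2 * n := by omega
    rw [h3]
    exact ⟨W, h1, h2⟩
  · intro N hN
    obtain ⟨W, h1, h2⟩ := hN
    exact Pool.Agent.Lib_helper24.Hyperplanes.lower (by omega) W h1 h2

end Pool.Agent.Results.MP_f4c587_an.Hyperplanes
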