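import Mathlib
import Pool.Agent.Lib_helper24.QD.Dims

/-!
# Real phase retrieval by projections: `2M - 4` subspaces in dimensions `M ≡ 0 mod 4`

For subspaces `W_1,...,W_N` of `ℝ^M` with orthogonal projections `P_n`, the family allows phase
retrieval if `‖P_n x‖ = ‖P_n y‖` for all `n` implies `x = y` or `x = -y`.

Main result: for every `M ≥ 8` divisible by 4 there are `2M - 4` subspaces, each of dimension `4` or
`M / 2`, which allow phase retrieval; so `N_min(M) ≤ 2M - 4`, and `N_4(8) ≤ 12`.

Idea. `ℝ^{4q} = ℍ^q`. If `K ∈ sp(q)` is a complex structure (`K² = -1`, commuting with the left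
multiplications) and `α` is an imaginary unit quaternion then `u ↦ α u K` is a symmetric
involution; for `α = i, j, k` these give the three components of `Im (u K v^*)`. Three projections
for each of `2q` complex structures, one more for the first one and the projections to `2q - 5`
quaternionic lines give `8q - 4` projections; for generic choices there is no bad pair `(u, v)`:
the bad parameters are images of sets of small Hausdorff dimension, because the equations are
invariant under the unit quaternions and every block of equations has full rank with respect to its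
own parameters (this rests on a positivity lemma). For `q = 2` there are four explicit complex
structures for which twelve projections suffice.
-/

namespace Pool.Agent.Results.MP_f4c587_an.QuatDim

/-- The family `W_1,...,W_N` of subspaces of `ℝ^M` (Euclidean inner product) allows phase
retrieval: if the orthogonal projections of `x` and `y` onto every `W n` have equal norms, then
`x = y` or `x = -y`. -/
def AllowsPhaseRetrieval {M N : ℕ} (W : Fin N → Submodule ℝ (EuclideanSpace ℝ (Fin M))) : Prop :=
  ∀ x y : EuclideanSpace ℝ (Fin M),
    (∀ n, ‖(W n).starProjection x‖ = ‖(W n).starProjection y‖) → x = y ∨ x = -y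

/-- The set of `N` for which some family of `N` subspaces of `ℝ^M` allows phase retrieval.
Its least element is `N_min(M)`. -/
def CountsAny (M : ℕ) : Set ℕ :=
  {N | ∃ W : Fin N → Submodule ℝ (EuclideanSpace ℝ (Fin M)), AllowsPhaseRetrieval W}

/-- For every `M ≥ 8` divisible by 4 the least number `c = N_min(M)` of subspaces of `ℝ^M` allowing
phase retrieval is at most `2M - 4`; there is even a family of `2M - 4` such subspaces each of
which has dimension `4` or `M / 2`. -/
theorem result (M : ℕ) (hM : 4 ∣ M) (h8 : 8 ≤ M) :
    ∃ c : ℕ, IsLeast (CountsAny M) c ∧ c ≤ 2 * M - 4 ∧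
      ∃ W : Fin (2 * M - 4) → Submodule ℝ (EuclideanSpace ℝ (Fin M)),
        (∀ n, Module.finrank ℝ (W n) = 4 ∨ Module.finrank ℝ (W n) = M / 2) ∧
          AllowsPhaseRetrieval W := by
  have key : ∃ W : Fin (2 * M - 4) → Submodule ℝ (EuclideanSpace ℝ (Fin M)),
        (∀ n, Module.finrank ℝ (W n) = 4 ∨ Module.finrank ℝ (W n) = M / 2) ∧
          AllowsPhaseRetrieval W := by
    obtain ⟨q, rfl⟩ := hM
    have e : 2 * (4 * q) - 4 = 8 * q - 4 := by omega
    have e' : 4 * q / 2 = 2 * q := by omega
    rw [e, e']
    by_cases hq : q = 2
    · subst hq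
      obtain ⟨W, h1, h2⟩ := QD24.quat_eight
      exact ⟨W, fun n => Or.inl (h1 n), h2⟩
    · exact QD24.quat_large_dim q (by omega)
  obtain ⟨W, h1, h2⟩ := key
  have h : 2 * M - 4 ∈ CountsAny M := ⟨W, h2⟩
  exact ⟨sInf (CountsAny M), ⟨Nat.sInf_mem ⟨_, h⟩, fun N hN => Nat.sInf_le hN⟩, Nat.sInf_le h,
    W, h1, h2⟩

end Pool.Agent.Results.MP_f4c587_an.QuatDim
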